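import Mathlib

set_option autoImplicit false

namespace Pool.Agent.Results.MP_185394_co.FiveNinths

open Finset

/-- Latin square: every row and every column contains every symbol exactly once. -/
def IsLatin {R C S : Type} (L : R → C → S) : Prop :=
  (∀ i, Function.Bijective (L i)) ∧ ∀ j, Function.Bijective fun i => L i j

/-- `P` is a `k`-plex of `L`: a set of cells with exactly `k` cells in every row, `k` cells in every
column and `k` cells carrying each symbol. -/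
def IsPlex {R C S : Type} [DecidableEq R] [DecidableEq C] [DecidableEq S]
    (L : R → C → S) (k : ℕ) (P : Finset (R × C)) : Prop :=
  (∀ i, (P.filter fun c => c.1 = i).card = k) ∧
  (∀ j, (P.filter fun c => c.2 = j).card = k) ∧
  ∀ s, (P.filter fun c => L c.1 c.2 = s).card = k

/-- an indivisible `k`-plex: it contains no `c`-plex with `0 < c < k`. -/
def IsIndivisible {R C S : Type} [DecidableEq R] [DecidableEq C] [DecidableEq S]
    (L : R → C → S) (k : ℕ) (P : Finset (R × C)) : Prop :=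
  IsPlex L k P ∧ ∀ c, 0 < c → c < k → ∀ Q, Q ⊆ P → ¬ IsPlex L c Q

/-- `κ(n)`: the largest `k ≥ 1` such that some Latin square of order `n` contains an indivisible
`k`-plex. -/
noncomputable def kappa (n : ℕ) : ℕ :=
  sSup {k | 1 ≤ k ∧ ∃ L : Fin n → Fin n → Fin n, IsLatin L ∧ ∃ P, IsIndivisible L k P}

/-! ### zero-sum labels force indivisibility -/

theorem sum_label {A T : Type} [Fintype T] [DecidableEq T] (Q : Finset A) (f : A → T) {k c : ℕ}
    (w : T → ZMod k) (h : ∀ t, (Q.filter fun p => f p = t).card = c) :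
    ∑ p ∈ Q, w (f p) = (c : ZMod k) * ∑ t, w t := by
  rw [← Finset.sum_fiberwise Q f, Finset.mul_sum]
  refine Finset.sum_congr rfl fun t _ => ?_
  rw [Finset.sum_congr rfl (g := fun _ => w t)
    (fun p hp => by rw [(Finset.mem_filter.mp hp).2])]
  rw [Finset.sum_const, h t, nsmul_eq_mul]

theorem indivisible_of_label {R C S : Type} [Fintype R] [Fintype C] [Fintype S]
    [DecidableEq R] [DecidableEq C] [DecidableEq S] (L : R → C → S) (k : ℕ)
    (P : Finset (R × C)) (hP : IsPlex L k P) (a : R → ZMod k) (b : C → ZMod k) (s : S → ZMod k)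
    (hz : ∀ p ∈ P, a p.1 + b p.2 + s (L p.1 p.2) = 0)
    (hW : IsUnit (∑ i, a i + ∑ j, b j + ∑ x, s x)) : IsIndivisible L k P := by
  refine ⟨hP, fun c hc hck Q hQ hQp => ?_⟩
  have h1 := sum_label Q (fun p : R × C => p.1) a hQp.1
  have h2 := sum_label Q (fun p : R × C => p.2) b hQp.2.1
  have h3 := sum_label Q (fun p : R × C => L p.1 p.2) s hQp.2.2
  have h4 : ∑ p ∈ Q, (a p.1 + b p.2 + s (L p.1 p.2)) = 0 :=
    Finset.sum_eq_zero fun p hp => hz p (hQ hp)
  rw [Finset.sum_add_distrib, Finset.sum_add_distrib, h1, h2, h3, ← mul_add, ← mul_add] at h4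
  have h5 : (c : ZMod k) = 0 := (hW.mul_left_eq_zero).mp h4
  have h6 := (ZMod.natCast_eq_zero_iff c k).mp h5
  exact absurd (Nat.le_of_dvd hc h6) (by omega)

theorem transport {R C S : Type} [Fintype R] [Fintype C] [Fintype S]
    [DecidableEq R] [DecidableEq C] [DecidableEq S] (n : ℕ)
    (eR : R ≃ Fin n) (eC : C ≃ Fin n) (eS : S ≃ Fin n)
    (L : R → C → S) (hL : IsLatin L) (k : ℕ)
    (P : Finset (R × C)) (hP : IsPlex L k P) (a : R → ZMod k) (b : C → ZMod k) (s : S → ZMod k)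
    (hz : ∀ p ∈ P, a p.1 + b p.2 + s (L p.1 p.2) = 0)
    (hW : IsUnit (∑ i, a i + ∑ j, b j + ∑ x, s x)) :
    ∃ L' : Fin n → Fin n → Fin n, IsLatin L' ∧ ∃ P', IsIndivisible L' k P' := by
  refine ⟨fun i j => eS (L (eR.symm i) (eC.symm j)), ⟨fun i => ?_, fun j => ?_⟩,
    P.map (eR.prodCongr eC).toEmbedding, ?_⟩
  · exact (eS.bijective.comp (hL.1 (eR.symm i))).comp eC.symm.bijective
  · exact (eS.bijective.comp (hL.2 (eC.symm j))).comp eR.symm.bijective
  · refine indivisible_of_label _ k _ ⟨fun i => ?_, fun j => ?_, fun t => ?_⟩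
      (fun i => a (eR.symm i)) (fun j => b (eC.symm j)) (fun x => s (eS.symm x)) ?_ ?_
    · rw [Finset.filter_map, Finset.card_map, ← hP.1 (eR.symm i)]
      congr 1
      ext p
      simp [Equiv.eq_symm_apply]
    · rw [Finset.filter_map, Finset.card_map, ← hP.2.1 (eC.symm j)]
      congr 1
      ext p
      simp [Equiv.eq_symm_apply]
    · rw [Finset.filter_map, Finset.card_map, ← hP.2.2 (eS.symm t)]
      congr 1
      ext p
      simp [Equiv.eq_symm_apply]
    · intro p hp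
      obtain ⟨q, hq, rfl⟩ := Finset.mem_map.mp hp
      simpa using hz q hq
    · rw [Equiv.sum_comp eR.symm a, Equiv.sum_comp eC.symm b, Equiv.sum_comp eS.symm s]
      exact hW

/-! ### the coarse data (order 9, labels mod 5) -/

def L0 : Fin 9 → Fin 9 → Fin 9 :=
  ![![1, 8, 6, 5, 4, 7, 3, 2, 0], ![8, 0, 7, 6, 5, 4, 2, 1, 3], ![7, 6, 4, 8, 3, 2, 0, 5, 1],
    ![6, 7, 5, 4, 2, 3, 1, 0, 8], ![4, 5, 2, 7, 0, 1, 8, 3, 6], ![5, 4, 3, 2, 1, 0, 6, 8, 7],
    ![3, 2, 0, 1, 8, 5, 7, 6, 4], ![2, 3, 1, 0, 6, 8, 4, 7, 5], ![0, 1, 8, 3, 7, 6, 5, 4, 2]]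

def rl : Fin 9 → ℕ := ![0, 0, 1, 1, 2, 2, 3, 3, 4]

def sl : Fin 9 → ℕ := ![1, 1, 2, 2, 3, 3, 4, 4, 0]

def tau (I J : Fin 9) : ℕ := (rl I + rl J + sl (L0 I J)) / 5

/-- the permutation of the three special rows in coarse column `J`. -/
def pf : Fin 9 → Fin 3 → Fin 3 :=
  ![![2, 1, 0], ![2, 0, 1], ![0, 2, 1], ![0, 2, 1], ![2, 0, 1], ![2, 0, 1], ![0, 2, 1],
    ![0, 2, 1], ![1, 2, 0]]

def exrow : Fin 3 → Fin 9 := ![4, 4, 5]

/-- patterns (sets of coarse columns used) of the 14 types of rows. -/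
def patT : Fin 14 → Finset (Fin 9) :=
  ![{1, 4, 6, 7, 8}, {0, 2, 3, 4, 5}, {0, 1, 4, 5, 6}, {1, 3, 5, 6, 8}, {0, 1, 2, 4, 8},
    {0, 2, 3, 4, 7}, {0, 2, 3, 6, 7}, {2, 3, 5, 7, 8}, {1, 5, 6, 7, 8},
    {0, 1, 4, 5, 8}, {0, 2, 3, 7, 8}, {1, 2, 4, 5, 6}, {0, 2, 3, 4, 8}, {1, 2, 3, 7, 8}]

/-- coarse source row of a row of given type in coarse column `J`. -/
def rowT (t : Fin 14) (J : Fin 9) : Fin 9 :=
  (![0, 1, 2, 3, 4, 5, 6, 7, 8, exrow (pf J 0), exrow (pf J 1), exrow (pf J 2), 3, 7] :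
    Fin 14 → Fin 9) t

theorem L0_col : ∀ J I I' : Fin 9, L0 I J = L0 I' J → I = I' := by decide +kernel

theorem rowT_inj : ∀ (t : Fin 14) (J J' : Fin 9),
    L0 (rowT t J) J = L0 (rowT t J') J' → J = J' := by decide +kernel

theorem pf_inj : ∀ J : Fin 9, ∀ u v : Fin 3, pf J u = pf J v → u = v := by decide +kernel

theorem zero_coarse : ∀ (t : Fin 14) (J : Fin 9), J ∈ patT t →
    rl (rowT t J) + rl J + sl (L0 (rowT t J) J) = 5 * tau (rowT t J) J := by decide +kernel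

theorem patT_card : ∀ t : Fin 14, (patT t).card = 5 := by decide +kernel

theorem pf_ne0 : ∀ J : Fin 9, J ∈ patT 9 → pf J 0 ≠ 0 := by decide +kernel
theorem pf_ne1 : ∀ J : Fin 9, J ∈ patT 10 → pf J 1 ≠ 0 := by decide +kernel
theorem pf_ne2 : ∀ J : Fin 9, J ∈ patT 11 → pf J 2 ≠ 0 := by decide +kernel

def FJ (J : Fin 9) (t : Fin 14) : ℤ := if J ∈ patT t then 1 else 0

def FS (S : Fin 9) (t : Fin 14) : ℤ :=
  ((Finset.univ.filter fun J : Fin 9 => J ∈ patT t ∧ L0 (rowT t J) J = S).card : ℤ)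

theorem FJ_sum : ∀ J : Fin 9, (∑ I : Fin 9, FJ J (Fin.castLE (by norm_num) I)) = 5 ∧
    (FJ J 9 - FJ J 4) + (FJ J 10 - FJ J 4) + (FJ J 11 - FJ J 5) + (FJ J 12 - FJ J 3) +
      (FJ J 13 - FJ J 7) = 0 := by decide +kernel

theorem FS_sum : ∀ S : Fin 9, (∑ I : Fin 9, FS S (Fin.castLE (by norm_num) I)) = 5 ∧
    (FS S 9 - FS S 4) + (FS S 10 - FS S 4) + (FS S 11 - FS S 5) + (FS S 12 - FS S 3) +
      (FS S 13 - FS S 7) = 0 := by decide +kernel

/-! ### the labels of the fine structure -/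

theorem five_mul_cast {g a b : ℕ} (h : a ≡ b [MOD g]) :
    (5 * (a : ZMod (5 * g))) = 5 * (b : ZMod (5 * g)) := by
  have := (ZMod.natCast_eq_natCast_iff (5 * a) (5 * b) (5 * g)).2 (h.mul_left' 5)
  push_cast at this
  exact this

noncomputable def phi (g : ℕ) [NeZero g] : ZMod g →+ ZMod (5 * g) :=
  AddMonoidHom.mk' (fun x => 5 * ((x.val : ℕ) : ZMod (5 * g))) (fun x y => by
    rw [← mul_add, ← Nat.cast_add]
    exact five_mul_cast (by rw [ZMod.val_add]; exact Nat.mod_modEq _ _))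

theorem phi_natCast (g : ℕ) [NeZero g] (n : ℕ) :
    phi g (n : ZMod g) = 5 * (n : ZMod (5 * g)) := by
  change 5 * (((n : ZMod g).val : ℕ) : ZMod (5 * g)) = _
  exact five_mul_cast (by rw [ZMod.val_natCast]; exact Nat.mod_modEq _ _)

theorem phi_sum (g : ℕ) [NeZero g] (hg : Odd g) : ∑ x : ZMod g, phi g x = 0 := by
  have h1 : ∑ x : ZMod g, phi g x = - ∑ x : ZMod g, phi g x := by
    rw [← Finset.sum_neg_distrib]
    rw [← Equiv.sum_comp (Equiv.neg (ZMod g))]
    exact Finset.sum_congr rfl fun x _ => by simp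
  have h2 : ((2 : ℕ) : ZMod (5 * g)) * ∑ x : ZMod g, phi g x = 0 := by
    push_cast
    rw [two_mul]
    nth_rewrite 1 [h1]
    simp
  have hu : IsUnit ((2 : ℕ) : ZMod (5 * g)) := (ZMod.isUnit_iff_coprime 2 (5 * g)).mpr (by
    rw [Nat.coprime_two_left]
    exact Odd.mul (by decide) hg)
  exact (hu.mul_right_eq_zero).mp h2

/-! ### the special rows -/

def ex (g : ℕ) : Fin 3 → Fin 9 × ZMod g := ![(4, 0), (4, 1), (5, 1)]

theorem ex_fst (g : ℕ) (u : Fin 3) : (ex g u).1 = exrow u := by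
  fin_cases u <;> rfl

theorem ex_inj (g : ℕ) (h01 : (0 : ZMod g) ≠ 1) : Function.Injective (ex g) := by
  intro u v h
  have h10 : (1 : ZMod g) ≠ 0 := h01.symm
  fin_cases u <;> fin_cases v <;> simp [ex, Prod.ext_iff, h01, h10] at h ⊢

noncomputable def pi' (J : Fin 9) : Equiv.Perm (Fin 3) :=
  Equiv.ofBijective (pf J) (Finite.injective_iff_bijective.mp (fun u v h => pf_inj J u v h))

noncomputable def src (g : ℕ) (hg : Function.Injective (ex g)) (J : Fin 9) :
    Equiv.Perm (Fin 9 × ZMod g) :=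
  (pi' J).viaEmbedding ⟨ex g, hg⟩

theorem src_ex (g : ℕ) (hg : Function.Injective (ex g)) (J : Fin 9) (t : Fin 3) :
    src g hg J (ex g t) = ex g (pf J t) :=
  Equiv.Perm.viaEmbedding_apply (pi' J) ⟨ex g, hg⟩ t

theorem src_not (g : ℕ) (hg : Function.Injective (ex g)) (J : Fin 9) (ρ : Fin 9 × ZMod g)
    (h : ∀ t, ex g t ≠ ρ) : src g hg J ρ = ρ :=
  Equiv.Perm.viaEmbedding_apply_of_notMem _ _ _ (by rintro ⟨t, ht⟩; exact h t ht)

/-- the type (out of 14) of a row. -/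
def ty (g : ℕ) (ρ : Fin 9 × ZMod g) : Fin 14 :=
  if ρ = (4, 0) then 9 else if ρ = (4, 1) then 10 else if ρ = (5, 1) then 11 else
  if ρ = (3, 0) then 12 else if ρ = (7, 0) then 13 else Fin.castLE (by norm_num) ρ.1

theorem rowT_castLE : ∀ I J : Fin 9, rowT (Fin.castLE (by norm_num) I) J = I := by
  decide +kernel

theorem ty_ex0 (g : ℕ) : ty g (ex g 0) = 9 := by
  simp [ty, ex]

theorem ty_ex1 (g : ℕ) (h01 : (0 : ZMod g) ≠ 1) : ty g (ex g 1) = 10 := by
  simp [ty, ex, h01.symm]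

theorem ty_ex2 (g : ℕ) : ty g (ex g 2) = 11 := by
  simp [ty, ex]

theorem rowT_ty_not (g : ℕ) (ρ : Fin 9 × ZMod g) (h : ∀ t, ex g t ≠ ρ) (J : Fin 9) :
    rowT (ty g ρ) J = ρ.1 := by
  have h0 : ρ ≠ (4, 0) := fun h' => h 0 h'.symm
  have h1 : ρ ≠ (4, 1) := fun h' => h 1 h'.symm
  have h2 : ρ ≠ (5, 1) := fun h' => h 2 h'.symm
  unfold ty
  rw [if_neg h0, if_neg h1, if_neg h2]
  by_cases h3 : ρ = (3, 0)
  · rw [if_pos h3, h3]; rfl
  · rw [if_neg h3]
    by_cases h4 : ρ = (7, 0)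
    · rw [if_pos h4, h4]; rfl
    · rw [if_neg h4]; exact rowT_castLE _ _

theorem src_row (g : ℕ) (h01 : (0 : ZMod g) ≠ 1) (hg : Function.Injective (ex g)) (J : Fin 9)
    (ρ : Fin 9 × ZMod g) : (src g hg J ρ).1 = rowT (ty g ρ) J := by
  by_cases h : ∃ t, ex g t = ρ
  · obtain ⟨t, rfl⟩ := h
    rw [src_ex, ex_fst]
    fin_cases t
    · change exrow (pf J 0) = rowT (ty g (ex g 0)) J
      rw [ty_ex0]; rfl
    · change exrow (pf J 1) = rowT (ty g (ex g 1)) J
      rw [ty_ex1 g h01]; rfl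
    · change exrow (pf J 2) = rowT (ty g (ex g 2)) J
      rw [ty_ex2]; rfl
  · push Not at h
    rw [src_not g hg J ρ h, rowT_ty_not g ρ h]

theorem sum_ty (g : ℕ) [NeZero g] (h01 : (0 : ZMod g) ≠ 1) (F : Fin 14 → ℤ) :
    ∑ ρ : Fin 9 × ZMod g, F (ty g ρ) =
      g * ∑ I : Fin 9, F (Fin.castLE (by norm_num) I) +
      ((F 9 - F 4) + (F 10 - F 4) + (F 11 - F 5) + (F 12 - F 3) + (F 13 - F 7)) := by
  have h10 : (1 : ZMod g) ≠ 0 := h01.symm
  have key : ∀ ρ : Fin 9 × ZMod g, F (ty g ρ) = F (Fin.castLE (by norm_num) ρ.1)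
      + (if ρ = (4, 0) then F 9 - F 4 else 0) + (if ρ = (4, 1) then F 10 - F 4 else 0)
      + (if ρ = (5, 1) then F 11 - F 5 else 0) + (if ρ = (3, 0) then F 12 - F 3 else 0)
      + (if ρ = (7, 0) then F 13 - F 7 else 0) := by
    intro ρ
    have c4 : (Fin.castLE (by norm_num) (4 : Fin 9) : Fin 14) = 4 := rfl
    have c5 : (Fin.castLE (by norm_num) (5 : Fin 9) : Fin 14) = 5 := rfl
    have c3 : (Fin.castLE (by norm_num) (3 : Fin 9) : Fin 14) = 3 := rfl
    have c7 : (Fin.castLE (by norm_num) (7 : Fin 9) : Fin 14) = 7 := rfl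
    have a1 : ((4 : Fin 9), (0 : ZMod g)) ≠ (4, 1) := by simp [h01]
    have a2 : ((4 : Fin 9), (0 : ZMod g)) ≠ (5, 1) := by simp
    have a3 : ((4 : Fin 9), (0 : ZMod g)) ≠ (3, 0) := by simp
    have a4 : ((4 : Fin 9), (0 : ZMod g)) ≠ (7, 0) := by simp
    have b2 : ((4 : Fin 9), (1 : ZMod g)) ≠ (5, 1) := by simp
    have b3 : ((4 : Fin 9), (1 : ZMod g)) ≠ (3, 0) := by simp
    have b4 : ((4 : Fin 9), (1 : ZMod g)) ≠ (7, 0) := by simp
    have d3 : ((5 : Fin 9), (1 : ZMod g)) ≠ (3, 0) := by simp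
    have d4 : ((5 : Fin 9), (1 : ZMod g)) ≠ (7, 0) := by simp
    have e4 : ((3 : Fin 9), (0 : ZMod g)) ≠ (7, 0) := by simp
    unfold ty
    by_cases h1 : ρ = (4, 0)
    · rw [h1, if_pos rfl, if_pos rfl, if_neg a1, if_neg a2, if_neg a3, if_neg a4, c4]; ring
    rw [if_neg h1, if_neg h1]
    by_cases h2 : ρ = (4, 1)
    · rw [h2, if_pos rfl, if_pos rfl, if_neg b2, if_neg b3, if_neg b4, c4]; ring
    rw [if_neg h2, if_neg h2]
    by_cases h3 : ρ = (5, 1)
    · rw [h3, if_pos rfl, if_pos rfl, if_neg d3, if_neg d4, c5]; ring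
    rw [if_neg h3, if_neg h3]
    by_cases h4 : ρ = (3, 0)
    · rw [h4, if_pos rfl, if_pos rfl, if_neg e4, c3]; ring
    rw [if_neg h4, if_neg h4]
    by_cases h5 : ρ = (7, 0)
    · rw [h5, if_pos rfl, if_pos rfl, c7]; ring
    rw [if_neg h5, if_neg h5]; ring
  rw [Finset.sum_congr rfl (fun ρ _ => key ρ)]
  simp only [Finset.sum_add_distrib, Finset.sum_ite_eq', Finset.mem_univ, if_true]
  rw [Fintype.sum_prod_type]
  simp only [Finset.sum_const, Finset.card_univ, ZMod.card, nsmul_eq_mul, ← Finset.mul_sum]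
  ring

/-! ### the Latin square and the plex -/

noncomputable def LL (g : ℕ) (hg : Function.Injective (ex g)) (ρ c : Fin 9 × ZMod g) :
    Fin 9 × ZMod g :=
  (L0 (src g hg c.1 ρ).1 c.1,
    -(src g hg c.1 ρ).2 - c.2 - ((tau (src g hg c.1 ρ).1 c.1 : ℕ) : ZMod g))

theorem LL_latin (g : ℕ) [NeZero g] (h01 : (0 : ZMod g) ≠ 1) (hg : Function.Injective (ex g)) :
    IsLatin (LL g hg) := by
  refine ⟨fun ρ => Finite.injective_iff_bijective.mp ?_,
    fun c => Finite.injective_iff_bijective.mp ?_⟩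
  · rintro ⟨J, j⟩ ⟨J', j'⟩ h
    have e1 := congrArg Prod.fst h
    have e2 := congrArg Prod.snd h
    simp only [LL] at e1 e2
    rw [src_row g h01, src_row g h01] at e1
    have hJ := rowT_inj _ _ _ e1
    subst hJ
    have : j = j' := by
      have e3 := sub_left_injective e2
      simpa using e3
    rw [this]
  · rintro ρ ρ' h
    have e1 := congrArg Prod.fst h
    have e2 := congrArg Prod.snd h
    simp only [LL] at e1 e2
    have hI := L0_col _ _ _ e1
    rw [hI] at e2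
    have e3 : (src g hg c.1 ρ).2 = (src g hg c.1 ρ').2 := by
      have := sub_left_injective (sub_left_injective e2)
      simpa using this
    exact (src g hg c.1).injective (Prod.ext hI e3)

def PP (g : ℕ) [NeZero g] : Finset ((Fin 9 × ZMod g) × (Fin 9 × ZMod g)) :=
  Finset.univ.filter fun p => p.2.1 ∈ patT (ty g p.1)

theorem PP_row (g : ℕ) [NeZero g] (ρ : Fin 9 × ZMod g) :
    ((PP g).filter fun c => c.1 = ρ).card = 5 * g := by
  have : ((PP g).filter fun c => c.1 = ρ) =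
      ({ρ} : Finset (Fin 9 × ZMod g)) ×ˢ (patT (ty g ρ) ×ˢ (Finset.univ : Finset (ZMod g))) := by
    ext p
    simp only [PP, Finset.mem_filter, Finset.mem_univ, true_and, Finset.mem_product,
      Finset.mem_singleton, and_true]
    constructor
    · rintro ⟨h1, h2⟩; subst h2; exact ⟨rfl, h1⟩
    · rintro ⟨h1, h2⟩; subst h1; exact ⟨h2, rfl⟩
  rw [this, Finset.card_product, Finset.card_product, patT_card]
  simp [ZMod.card]

theorem PP_col (g : ℕ) [NeZero g] (h01 : (0 : ZMod g) ≠ 1) (c : Fin 9 × ZMod g) :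
    ((PP g).filter fun p => p.2 = c).card = 5 * g := by
  have h : ((PP g).filter fun p => p.2 = c) =
      (Finset.univ.filter fun ρ : Fin 9 × ZMod g => c.1 ∈ patT (ty g ρ)) ×ˢ
        ({c} : Finset (Fin 9 × ZMod g)) := by
    ext p
    simp only [PP, Finset.mem_filter, Finset.mem_univ, true_and, Finset.mem_product,
      Finset.mem_singleton]
    constructor
    · rintro ⟨h1, h2⟩; subst h2; exact ⟨h1, rfl⟩
    · rintro ⟨h1, h2⟩; subst h2; exact ⟨h1, rfl⟩
  rw [h, Finset.card_product, Finset.card_singleton, mul_one]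
  have h2 := sum_ty g h01 (FJ c.1)
  rw [(FJ_sum c.1).1, (FJ_sum c.1).2] at h2
  have h3 : ((Finset.univ.filter fun ρ : Fin 9 × ZMod g => c.1 ∈ patT (ty g ρ)).card : ℤ) =
      ∑ ρ : Fin 9 × ZMod g, FJ c.1 (ty g ρ) := by
    simp [FJ]
  have h4 : ((Finset.univ.filter fun ρ : Fin 9 × ZMod g => c.1 ∈ patT (ty g ρ)).card : ℤ) =
      5 * g := by rw [h3, h2]; ring
  exact_mod_cast h4

theorem PP_sym (g : ℕ) [NeZero g] (h01 : (0 : ZMod g) ≠ 1) (hg : Function.Injective (ex g))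
    (s : Fin 9 × ZMod g) :
    ((PP g).filter fun p => LL g hg p.1 p.2 = s).card = 5 * g := by
  have h1 : ((PP g).filter fun p => LL g hg p.1 p.2 = s).card =
      (Finset.univ.filter fun q : (Fin 9 × ZMod g) × Fin 9 =>
        q.2 ∈ patT (ty g q.1) ∧ L0 (rowT (ty g q.1) q.2) q.2 = s.1).card := by
    refine Finset.card_nbij' (fun p => (p.1, p.2.1))
      (fun q => (q.1, (q.2, -(src g hg q.2 q.1).2 -
        ((tau (src g hg q.2 q.1).1 q.2 : ℕ) : ZMod g) - s.2))) ?_ ?_ ?_ ?_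
    · intro p hp
      simp only [PP, Finset.coe_filter, Finset.mem_filter, Finset.mem_univ, true_and,
        Set.mem_ofPred_eq] at hp ⊢
      refine ⟨hp.1, ?_⟩
      rw [← hp.2, ← src_row g h01 hg]
      rfl
    · intro q hq
      simp only [PP, Finset.coe_filter, Finset.mem_filter, Finset.mem_univ, true_and,
        Set.mem_ofPred_eq] at hq ⊢
      refine ⟨hq.1, ?_⟩
      rw [← src_row g h01 hg] at hq
      refine Prod.ext hq.2 ?_
      simp only [LL]
      ring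
    · rintro ⟨ρ, J, j⟩ hp
      simp only [PP, Finset.coe_filter, Finset.mem_filter, Finset.mem_univ, true_and,
        Set.mem_ofPred_eq] at hp ⊢
      have e2 := congrArg Prod.snd hp.2
      simp only [LL] at e2
      rw [← e2]
      refine Prod.ext rfl (Prod.ext rfl ?_)
      simp only
      ring
    · rintro ⟨ρ, J⟩ hq
      rfl
  rw [h1]
  have h2 := sum_ty g h01 (FS s.1)
  rw [(FS_sum s.1).1, (FS_sum s.1).2] at h2
  have h3 : ((Finset.univ.filter fun q : (Fin 9 × ZMod g) × Fin 9 =>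
        q.2 ∈ patT (ty g q.1) ∧ L0 (rowT (ty g q.1) q.2) q.2 = s.1).card : ℤ) =
      ∑ ρ : Fin 9 × ZMod g, FS s.1 (ty g ρ) := by
    rw [Finset.card_filter, Fintype.sum_prod_type]
    push_cast
    refine Finset.sum_congr rfl fun ρ _ => ?_
    rw [FS, Finset.card_filter]
    push_cast
    rfl
  have h4 : ((Finset.univ.filter fun q : (Fin 9 × ZMod g) × Fin 9 =>
        q.2 ∈ patT (ty g q.1) ∧ L0 (rowT (ty g q.1) q.2) q.2 = s.1).card : ℤ) =
      5 * g := by rw [h3, h2]; ring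
  exact_mod_cast h4

/-- row labels -/
noncomputable def lamR (g : ℕ) [NeZero g] (ρ : Fin 9 × ZMod g) : ZMod (5 * g) :=
  (rl ρ.1 : ZMod (5 * g)) + phi g ρ.2 + (if ρ = (4, 0) then phi g 1 else 0)

noncomputable def lamC (g : ℕ) [NeZero g] (c : Fin 9 × ZMod g) : ZMod (5 * g) :=
  (rl c.1 : ZMod (5 * g)) + phi g c.2

noncomputable def lamS (g : ℕ) [NeZero g] (s : Fin 9 × ZMod g) : ZMod (5 * g) :=
  (sl s.1 : ZMod (5 * g)) + phi g s.2

theorem lam_src (g : ℕ) [NeZero g] (h01 : (0 : ZMod g) ≠ 1) (hg : Function.Injective (ex g))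
    (ρ : Fin 9 × ZMod g) (J : Fin 9) (hJ : J ∈ patT (ty g ρ)) :
    lamR g ρ = (rl (src g hg J ρ).1 : ZMod (5 * g)) + phi g (src g hg J ρ).2 := by
  have hu : ∀ u : Fin 3, u ≠ 0 → rl (ex g u).1 = 2 ∧ (ex g u).2 = 1 := by
    intro u hu
    fin_cases u
    · exact absurd rfl hu
    · exact ⟨rfl, rfl⟩
    · exact ⟨rfl, rfl⟩
  by_cases h : ∃ t, ex g t = ρ
  · obtain ⟨t, rfl⟩ := h
    rw [src_ex]
    have hne : pf J t ≠ 0 := by
      fin_cases t
      · exact pf_ne0 J (by rw [← ty_ex0 g]; exact hJ)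
      · exact pf_ne1 J (by rw [← ty_ex1 g h01]; exact hJ)
      · exact pf_ne2 J (by rw [← ty_ex2 g]; exact hJ)
    rw [(hu _ hne).1, (hu _ hne).2]
    fin_cases t
    · simp [lamR, ex, rl]
    · have : ((4 : Fin 9), (1 : ZMod g)) ≠ (4, 0) := by simp [h01.symm]
      change (rl 4 : ZMod (5 * g)) + phi g 1 +
        (if ((4 : Fin 9), (1 : ZMod g)) = (4, 0) then phi g 1 else 0) = _
      rw [if_neg this, add_zero]
      rfl
    · have : ((5 : Fin 9), (1 : ZMod g)) ≠ (4, 0) := by simp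
      change (rl 5 : ZMod (5 * g)) + phi g 1 +
        (if ((5 : Fin 9), (1 : ZMod g)) = (4, 0) then phi g 1 else 0) = _
      rw [if_neg this, add_zero]
      rfl
  · push Not at h
    rw [src_not g hg J ρ h, lamR, if_neg (fun h' => h 0 h'.symm), add_zero]

theorem PP_zero (g : ℕ) [NeZero g] (h01 : (0 : ZMod g) ≠ 1) (hg : Function.Injective (ex g))
    (p : (Fin 9 × ZMod g) × (Fin 9 × ZMod g)) (hp : p ∈ PP g) :
    lamR g p.1 + lamC g p.2 + lamS g (LL g hg p.1 p.2) = 0 := by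
  obtain ⟨ρ, J, j⟩ := p
  simp only [PP, Finset.mem_filter, Finset.mem_univ, true_and] at hp
  have hz := zero_coarse _ _ hp
  rw [← src_row g h01 hg] at hz
  simp only
  rw [lam_src g h01 hg ρ J hp]
  simp only [lamC, lamS, LL, map_sub, map_neg, phi_natCast]
  have hz' := congrArg (fun n : ℕ => (n : ZMod (5 * g))) hz
  simp only [Nat.cast_add, Nat.cast_mul, Nat.cast_ofNat] at hz'
  linear_combination hz'

theorem W_eq (g : ℕ) [NeZero g] (hodd : Odd g) :
    ∑ ρ, lamR g ρ + ∑ c, lamC g c + ∑ s, lamS g s = ((52 * g + 5 : ℕ) : ZMod (5 * g)) := by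
  have hphi : phi g 1 = 5 := by
    have := phi_natCast g 1
    simpa using this
  have hC : ∑ c, lamC g c = ((16 * g : ℕ) : ZMod (5 * g)) := by
    simp only [lamC]
    rw [Fintype.sum_prod_type]
    simp only [Finset.sum_add_distrib, phi_sum g hodd, Finset.sum_const, Finset.card_univ,
      ZMod.card, nsmul_eq_mul, smul_zero, add_zero, mul_zero]
    rw [← Finset.mul_sum, ← Nat.cast_sum, ← Nat.cast_mul]
    congr 1
    have : ∑ i : Fin 9, rl i = 16 := by decide
    rw [this]; ring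
  have hS : ∑ s, lamS g s = ((20 * g : ℕ) : ZMod (5 * g)) := by
    simp only [lamS]
    rw [Fintype.sum_prod_type]
    simp only [Finset.sum_add_distrib, phi_sum g hodd, Finset.sum_const, Finset.card_univ,
      ZMod.card, nsmul_eq_mul, smul_zero, add_zero, mul_zero]
    rw [← Finset.mul_sum, ← Nat.cast_sum, ← Nat.cast_mul]
    congr 1
    have : ∑ i : Fin 9, sl i = 20 := by decide
    rw [this]; ring
  have hR : ∑ ρ, lamR g ρ = ((16 * g : ℕ) : ZMod (5 * g)) + 5 := by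
    have : ∀ ρ, lamR g ρ = lamC g ρ + (if ρ = (4, 0) then phi g 1 else 0) := fun ρ => rfl
    simp only [this]
    rw [Finset.sum_add_distrib, hC, Finset.sum_ite_eq', if_pos (Finset.mem_univ _), hphi]
  rw [hR, hC, hS]
  push_cast
  ring

theorem exists_indivisible (g : ℕ) (hodd : Odd g) (h1 : 1 < g) (h5 : ¬ 5 ∣ g) :
    ∃ L : Fin (9 * g) → Fin (9 * g) → Fin (9 * g), IsLatin L ∧
      ∃ P, IsIndivisible L (5 * g) P := by
  have : NeZero g := ⟨by omega⟩
  have : Fact (1 < g) := ⟨h1⟩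
  have h01 : (0 : ZMod g) ≠ 1 := zero_ne_one
  have hg := ex_inj g h01
  have hcard : Fintype.card (Fin 9 × ZMod g) = 9 * g := by
    simp [ZMod.card]
  have e : (Fin 9 × ZMod g) ≃ Fin (9 * g) := Fintype.equivFinOfCardEq hcard
  refine transport (9 * g) e e e (LL g hg) (LL_latin g h01 hg) (5 * g) (PP g)
    ⟨PP_row g, PP_col g h01, PP_sym g h01 hg⟩ (lamR g) (lamC g) (lamS g)
    (fun p hp => PP_zero g h01 hg p hp) ?_
  rw [W_eq g hodd]
  refine (ZMod.isUnit_iff_coprime _ _).mpr ?_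
  have hg5 : Nat.Coprime g 5 := ((Nat.Prime.coprime_iff_not_dvd (by norm_num)).mpr h5).symm
  refine Nat.Coprime.mul_right ?_ ?_
  · have : Nat.Coprime (52 * g) 5 := Nat.Coprime.mul_left (by norm_num) hg5
    simpa using this
  · have : Nat.Coprime 5 g := hg5.symm
    simpa using this

theorem kappa_bdd (n : ℕ) (hn : 0 < n) :
    BddAbove {k | 1 ≤ k ∧ ∃ L : Fin n → Fin n → Fin n, IsLatin L ∧ ∃ P, IsIndivisible L k P} := by
  refine ⟨n * n, ?_⟩
  rintro k ⟨-, L, -, P, hP⟩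
  rw [← hP.1.1 ⟨0, hn⟩]
  calc _ ≤ P.card := Finset.card_filter_le _ _
    _ ≤ Fintype.card (Fin n × Fin n) := Finset.card_le_univ _
    _ = n * n := by simp

/-- For every odd `g ≥ 3` not divisible by `5` there is a Latin square of order `9g` containing an
indivisible `5g`-plex; hence `κ(9g) ≥ 5g`, i.e. `κ(n) ≥ (5/9) n` for infinitely many `n`. -/
theorem result : ∀ g : ℕ, Odd g → 3 ≤ g → ¬ 5 ∣ g →
    (∃ L : Fin (9 * g) → Fin (9 * g) → Fin (9 * g), IsLatin L ∧
      ∃ P, IsIndivisible L (5 * g) P) ∧ 5 * g ≤ kappa (9 * g) := by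
  intro g hodd h3 h5
  have h := exists_indivisible g hodd (by omega) h5
  exact ⟨h, le_csSup (kappa_bdd _ (by omega)) ⟨by omega, h⟩⟩

end Pool.Agent.Results.MP_185394_co.FiveNinths
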